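import Mathlib
import Pool.Agent.helper60.SA.NamesS

set_option autoImplicit false

/-!
# A selectively (a) almost disjoint family of cardinality `𝔡`

There is a model `(M, E)` of ZFC with an almost disjoint family `a` of cardinality `𝔡` such that
the space `Ψ(a)` is selectively (a).

The model is obtained by forcing over a universe of sets (over Lean's `Type 1`). The poset first
adds, with countable conditions, a tower `(U α)` (`α < ω₁`) and sets `A α ⊆ U α` almost disjoint
from the later `U β`; the sets `A α` form the almost disjoint family. Then, in a countable support
iteration, it adds for each name of a function `f : ω₁ → ω` a set `P ⊆ ω` which meets each `A α` in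
a finite set with an element `≥ f(α)`. The conditions at a coordinate are trees `T ⊆ 2^{<ω}`, all
of whose nodes at a level split or none of them do, and whose set of splitting levels is (mod finite,
and apart from some of the sets `A α`) the last set `U` of the countable tower which is part of the
condition. A fusion argument, in which the last set of the tower of the fusion consists of the
levels which have been kept free, shows that `ω₁` is preserved and that every function from `ω` to
`ω` is dominated by the enumeration of some `U α`, so that `𝔡 = ω₁` in the extension. The
iteration is along a well-founded order: a coordinate is (a code of) a name of a function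
`f : ω₁ → ω`, and the coordinates which occur in the name are smaller.
-/

namespace Pool.Agent.Results.MP_556855_lc.SelectivelyAOfSizeD

open Pool.Agent.helper60.SA Pool.Agent.helper60.FcU

/-- There is a model `(M, E)` of ZFC with elements `w`, `a` such that in `(M, E)`: `w = ω`; `a` is an
almost disjoint family; the cardinality of `a` is `𝔡`; the space `Ψ(a)` is selectively (a). -/
theorem result : ∃ (M : Type) (E : M → M → Prop), IsZFC E ∧ ∃ w a : M,
    Sem.IsOmega E w ∧ Sem.ADFam E w a ∧ Sem.CardIsD E w a ∧ Sem.SelA E w a :=
  exists_model_SA

end Pool.Agent.Results.MP_556855_lc.SelectivelyAOfSizeD
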